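import Pool.Agent.DPL.StmtsC

/-!
Squad DPL, row TST: truncated squares, all thresholds.
-/

namespace Pool.Agent.DPL.H10

open Finset Polynomial Pool.Agent.DPS

/-- the number of k-sets that contain `R` bounds the degree of `R` -/
theorem dg_le (stv : STVStmt) {n k : ℕ} (hkn : k ≤ n) (A : Finset (KS n k))
    (R : Finset (Fin n)) (hR : R.card ≤ k) :
    dg (ind A) R ≤ ((n - R.card).choose (k - R.card) : ℝ) := by
  have h3 := (stv n k R ∅ hR hkn (by simp)).2.2
  rw [← h3]
  unfold dg ip DPS.star ind
  refine Finset.sum_le_sum fun F _ => ?_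
  split_ifs <;> norm_num

/-- the degrees in the star -/
theorem dg_star (stv : STVStmt) {n k : ℕ} (hkn : k ≤ n) (T R : Finset (Fin n)) (hT : T.card = 2)
    (hk : 2 ≤ k) (hR : R.card ≤ n - k) :
    dg (star k T) R = ((n - 2 - (R \ T).card).choose (n - k) : ℝ) := by
  have h3 := (stv n k T R (by omega) hkn hR).2.1
  rw [h3, hT]
  unfold dl
  have h4 : n - 2 - (k - 2) = n - k := by omega
  have h5 : (0 : ℝ) < ((n - 2).choose (k - 2) : ℝ) := by
    exact_mod_cast Nat.choose_pos (by omega)
  rw [h4]
  field_simp

/-- TST -/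
theorem tst (tsl : TSLStmt) (stv : STVStmt) : TSTStmt := by
  intro n k r hn hr hrk μ hμ A hA T hT
  have hkn : k ≤ n := by omega
  have hlt : ((n - r - 1).choose (k - r - 1) : ℝ) < ((n - r).choose (k - r) : ℝ) := by
    obtain ⟨m, hm⟩ : ∃ m, k - r = m + 1 := ⟨k - r - 1, by omega⟩
    obtain ⟨N, hN⟩ : ∃ N, n - r = N + 1 := ⟨n - r - 1, by omega⟩
    have h1 : n - r - 1 = N := by omega
    have h2 : k - r - 1 = m := by omega
    rw [h1, h2, hm, hN, Nat.choose_succ_succ]
    have h3 : 0 < N.choose (m + 1) := Nat.choose_pos (by omega)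
    push_cast
    have h4 : (0 : ℝ) < (N.choose (m + 1) : ℝ) := by exact_mod_cast h3
    linarith
  have hA0 : ∀ R ∈ powersetCard r (univ : Finset (Fin n)),
      dg (ind A) R ≤ ((n - r).choose (k - r) : ℝ) := by
    intro R hR
    rw [mem_powersetCard] at hR
    have h1 := dg_le stv hkn A R (by omega)
    rwa [hR.2] at h1
  have hS1 : ∀ R ∈ powersetCard r (univ : Finset (Fin n)), T ⊆ R →
      dg (star k T) R = ((n - r).choose (k - r) : ℝ) := by
    intro R hR hTR
    rw [mem_powersetCard] at hR
    rw [dg_star stv hkn T R hT (by omega) (by omega)]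
    have h1 : (R \ T).card = r - 2 := by rw [card_sdiff_of_subset hTR, hR.2, hT]
    have h2 : n - 2 - (r - 2) = n - r := by omega
    rw [h1, h2]
    congr 1
    refine Nat.choose_symm_of_eq_add ?_
    omega
  have hS2 : ∀ R ∈ powersetCard r (univ : Finset (Fin n)), ¬ T ⊆ R →
      dg (star k T) R ≤ ((n - r - 1).choose (k - r - 1) : ℝ) := by
    intro R hR hTR
    rw [mem_powersetCard] at hR
    rw [dg_star stv hkn T R hT (by omega) (by omega)]
    have h1 : r - 1 ≤ (R \ T).card := by
      have h2 : (T ∩ R).card < T.card := by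
        refine card_lt_card ⟨inter_subset_left, fun h => hTR ?_⟩
        exact h.trans inter_subset_right
      have h3 : (R \ T).card + (R ∩ T).card = R.card := card_sdiff_add_card_inter R T
      rw [inter_comm] at h2
      omega
    have h2 : (n - r - 1).choose (k - r - 1) = (n - 2 - (r - 1)).choose (n - k) := by
      have h3 : n - 2 - (r - 1) = n - r - 1 := by omega
      rw [h3]
      refine Nat.choose_symm_of_eq_add ?_
      omega
    rw [h2]
    exact_mod_cast Nat.choose_le_choose _ (by omega)
  have hμ1 : (0 : ℝ) ≤ ((n - r - 1).choose (k - r - 1) : ℝ) := by positivity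
  have hT1 := fun h => tsl n k r hn hr hrk μ hμ h A hA T hT
  have hT2 := tsl n k r hn hr hrk _ hμ1 le_rfl A hA T hT
  generalize ((n - r - 1).choose (k - r - 1) : ℝ) = m at *
  generalize ((n - r).choose (k - r) : ℝ) = D at *
  rcases le_total μ m with h1 | h1
  · exact hT1 h1
  rcases le_total D μ with h2 | h2
  · refine le_trans (le_of_eq ?_) (Finset.sum_nonneg fun R _ => sq_nonneg _)
    refine Finset.sum_eq_zero fun R hR => ?_
    rw [max_eq_right (by linarith [hA0 R hR])]
    norm_num
  · have hD : 0 < D - m := by linarith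
    have hc : 0 ≤ (D - μ) / (D - m) := div_nonneg (by linarith) hD.le
    calc ∑ R ∈ powersetCard r (univ : Finset (Fin n)), (max (dg (ind A) R - μ) 0) ^ 2
        ≤ ∑ R ∈ powersetCard r (univ : Finset (Fin n)),
          ((D - μ) / (D - m)) ^ 2 * (max (dg (ind A) R - m) 0) ^ 2 := by
          refine Finset.sum_le_sum fun R hR => ?_
          rw [← mul_pow]
          refine pow_le_pow_left₀ (le_max_right _ _) (max_le ?_ ?_) 2
          · rcases le_total (dg (ind A) R) m with h3 | h3
            · have h4 : 0 ≤ (D - μ) / (D - m) * max (dg (ind A) R - m) 0 :=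
                mul_nonneg hc (le_max_right _ _)
              linarith
            · rw [max_eq_left (by linarith), div_mul_eq_mul_div, le_div_iff₀ hD]
              nlinarith [mul_nonneg (sub_nonneg.2 (hA0 R hR)) (sub_nonneg.2 h1)]
          · exact mul_nonneg hc (le_max_right _ _)
      _ = ((D - μ) / (D - m)) ^ 2 * ∑ R ∈ powersetCard r (univ : Finset (Fin n)),
          (max (dg (ind A) R - m) 0) ^ 2 := by rw [Finset.mul_sum]
      _ ≤ ((D - μ) / (D - m)) ^ 2 * ∑ R ∈ powersetCard r (univ : Finset (Fin n)),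
          (max (dg (star k T) R - m) 0) ^ 2 := mul_le_mul_of_nonneg_left hT2 (sq_nonneg _)
      _ = ∑ R ∈ powersetCard r (univ : Finset (Fin n)),
          ((D - μ) / (D - m)) ^ 2 * (max (dg (star k T) R - m) 0) ^ 2 := by rw [Finset.mul_sum]
      _ = ∑ R ∈ powersetCard r (univ : Finset (Fin n)), (max (dg (star k T) R - μ) 0) ^ 2 := by
          refine Finset.sum_congr rfl fun R hR => ?_
          by_cases h3 : T ⊆ R
          · rw [hS1 R hR h3, max_eq_left hD.le, max_eq_left (by linarith), ← mul_pow,
              div_mul_cancel₀ _ hD.ne']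
          · have h4 := hS2 R hR h3
            rw [max_eq_right (by linarith), max_eq_right (by linarith)]
            norm_num

end Pool.Agent.DPL.H10
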